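import Pool.Agent.Helper82.BR.St

/-!
# Project BR, module CI: circles whose centre is not in the set
-/

set_option autoImplicit false

namespace Pool.Agent.Helper72.BR

open Pool.Agent.Helper82.BR
open scoped ComplexConjugate

private lemma mul_conj_one {p : ℂ} (hp : ‖p‖ = 1) : p * conj p = 1 := by
  rw [Complex.mul_conj, Complex.normSq_eq_norm_sq, hp]
  norm_num

private lemma key {s p q : ℂ} (hp : ‖p‖ = 1) (hq : ‖q‖ = 1) (hpq : p ≠ q)
    (h : dist s p = dist s q) : s = p * q * conj s := by
  have h1 : (s - p) * conj (s - p) = (s - q) * conj (s - q) := by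
    rw [Complex.mul_conj, Complex.mul_conj, Complex.normSq_eq_norm_sq, Complex.normSq_eq_norm_sq,
      ← dist_eq_norm, ← dist_eq_norm, h]
  have hp1 := mul_conj_one hp
  have hq1 := mul_conj_one hq
  rw [map_sub, map_sub] at h1
  have h2 : (p - q) * (s - p * q * conj s) = 0 := by
    linear_combination (p * q) * h1 + (s * q - p * q) * hp1 + (p * q - s * p) * hq1
  rcases mul_eq_zero.1 h2 with h3 | h3
  · exact absurd (sub_eq_zero.1 h3) hpq
  · exact sub_eq_zero.1 h3

/-- CI. -/
theorem hCI (hPR : StPR) : StCI := by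
  intro S hS h2 h0
  obtain ⟨A, hA⟩ : ∃ A, A = S.filter (fun s => ‖s‖ = 1) := ⟨_, rfl⟩
  rw [← hA]
  have hAm : ∀ z ∈ A, z ∈ S ∧ ‖z‖ = 1 := fun z hz => Finset.mem_filter.1 (hA ▸ hz)
  rcases Nat.lt_or_ge A.card 2 with hc | hc
  · omega
  rcases Nat.lt_or_ge A.card 3 with hc3 | hc3
  · have hc2 : A.card = 2 := by omega
    obtain ⟨p, q, hpq, he⟩ := Finset.card_eq_two.1 hc2
    have hp := hAm p (by rw [he]; simp)
    have hq := hAm q (by rw [he]; simp)
    have hT := hS p hp.1 q hq.1 hpq
    have hdis : Disjoint ({p, q} : Finset ℂ) (S.filter (fun s => dist s p = dist s q)) := by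
      rw [Finset.disjoint_left]
      intro z hz hz'
      have h3 := (Finset.mem_filter.1 hz').2
      rcases Finset.mem_insert.1 hz with h4 | h4
      · rw [h4, dist_self] at h3
        exact hpq (dist_eq_zero.1 h3.symm)
      · rw [Finset.mem_singleton.1 h4, dist_self] at h3
        exact hpq (dist_eq_zero.1 h3).symm
    have hsub : ({p, q} : Finset ℂ) ∪ S.filter (fun s => dist s p = dist s q) ⊆ S := by
      intro z hz
      rcases Finset.mem_union.1 hz with h3 | h3
      · rcases Finset.mem_insert.1 h3 with h4 | h4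
        · rw [h4]
          exact hp.1
        · rw [Finset.mem_singleton.1 h4]
          exact hq.1
      · exact (Finset.mem_filter.1 h3).1
    have h5 := Finset.card_le_card hsub
    rw [Finset.card_union_of_disjoint hdis, Finset.card_pair hpq] at h5
    omega
  · have hA0 : (0 : ℂ) ∉ A := fun h => h0 (hAm 0 h).1
    have hD := hPR A hA0 hc3
    obtain ⟨D, hDe⟩ : ∃ D, D = (A.offDiag).image (fun x => x.1 * x.2) := ⟨_, rfl⟩
    rw [← hDe] at hD
    obtain ⟨S', hS'⟩ : ∃ S', S' = S.filter (fun s => s / conj s ∈ D) := ⟨_, rfl⟩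
    have h3 : S'.card = ∑ d ∈ D, (S'.filter (fun s => s / conj s = d)).card :=
      Finset.card_eq_sum_card_fiberwise (fun s hs => by
        rw [hS'] at hs
        exact (Finset.mem_filter.1 (Finset.mem_coe.1 hs)).2)
    have h4 : ∀ d ∈ D, 2 ≤ (S'.filter (fun s => s / conj s = d)).card := by
      intro d hd
      have hd' := hd
      rw [hDe] at hd'
      obtain ⟨x, hx, rfl⟩ := Finset.mem_image.1 hd'
      obtain ⟨hx1, hx2, hx3⟩ := Finset.mem_offDiag.1 hx
      have hp := hAm _ hx1
      have hq := hAm _ hx2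
      refine (hS x.1 hp.1 x.2 hq.1 hx3).trans (Finset.card_le_card ?_)
      intro s hs
      obtain ⟨hs1, hs2⟩ := Finset.mem_filter.1 hs
      have hs0 : s ≠ 0 := fun h => h0 (h ▸ hs1)
      have hs0' : conj s ≠ 0 := (map_ne_zero _).2 hs0
      have h5 : s / conj s = x.1 * x.2 := by
        rw [div_eq_iff hs0']
        exact key hp.2 hq.2 hx3 hs2
      refine Finset.mem_filter.2 ⟨?_, h5⟩
      rw [hS']
      refine Finset.mem_filter.2 ⟨hs1, ?_⟩
      rw [h5]
      exact hd
    have h5 : D.card * 2 ≤ S'.card := by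
      rw [h3, ← smul_eq_mul]
      exact Finset.card_nsmul_le_sum D _ 2 h4
    have h6 : S'.card ≤ S.card := by
      rw [hS']
      exact Finset.card_filter_le _ _
    omega

end Pool.Agent.Helper72.BR
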