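import Pool.Agent.Helper82.BR.St3

/-!
# Project BR8, module R2B
-/

set_option autoImplicit false

namespace Pool.Agent.Helper72.BR

open Pool.Agent.Helper82.BR
open scoped ComplexConjugate

/-- The equation of the bisector of `0` and `b`, for `b = ρ conj b`. -/
private lemma bis {z b ρ : ℂ} (hb0 : b ≠ 0) (hb : b = ρ * conj b) (h : dist z 0 = dist z b) :
    z + ρ * conj z = b := by
  have h1 : z * conj z = (z - b) * conj (z - b) := by
    rw [Complex.mul_conj, Complex.mul_conj, Complex.normSq_eq_norm_sq, Complex.normSq_eq_norm_sq,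
      ← dist_eq_norm, ← h, dist_zero_right]
  rw [map_sub] at h1
  have hc : conj b ≠ 0 := (map_ne_zero _).2 hb0
  have h2 : conj b * (z + ρ * conj z - b) = 0 := by
    linear_combination h1 - conj z * hb
  rcases mul_eq_zero.1 h2 with h3 | h3
  · exact absurd h3 hc
  · exact sub_eq_zero.1 h3

/-- R2B. -/
theorem hR2B : StR2B := by
  intro S w ρ b1 b2 b3 hcfg hw e1 e2 e3
  obtain ⟨hw2, hn, hS, hb1, hb2, hb3, c1, c2, c3, hmem⟩ := hcfg
  have hc : ρ * conj ρ = 1 := by
    rw [Complex.mul_conj, Complex.normSq_eq_norm_sq, hn]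
    norm_num
  have h4 : ρ ^ 4 - ρ ^ 2 + 1 = 0 := by
    rw [← hw] at hw2
    linear_combination hw2
  have hρ : ρ ≠ 0 := by
    intro h
    rw [h, zero_mul] at hc
    exact zero_ne_one hc
  have h0S : (0 : ℂ) ∈ S := (hmem 0).2 (Or.inl rfl)
  have h1S : b1 ∈ S := (hmem b1).2 (by tauto)
  have hT := hS 0 h0S b1 h1S (Ne.symm hb1)
  have hsub : S.filter (fun s => dist s 0 = dist s b1) ⊆ {b3} := by
    intro z hz
    obtain ⟨hz1, hz2⟩ := Finset.mem_filter.1 hz
    have h := bis hb1 c1 hz2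
    rw [Finset.mem_singleton]
    rcases (hmem z).1 hz1 with h5 | h5 | h5 | h5 | h5 | h5 | h5 | h5
    · exfalso
      rw [h5, map_zero, mul_zero, add_zero] at h
      exact hb1 h.symm
    · exfalso
      rw [h5, map_one, mul_one] at h
      have h6 : ρ * (1 + ρ ^ 2) = 0 := by
        linear_combination (1 + ρ ^ 3) * h + e1 - h4
      have h7 : 1 + ρ ^ 2 = 0 := (mul_eq_zero.1 h6).resolve_left hρ
      have h8 : (3 : ℂ) = 0 := by
        linear_combination h4 - (ρ ^ 2 - 2) * h7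
      norm_num at h8
    · exfalso
      rw [h5, hc] at h
      have h6 : ρ * (1 + ρ ^ 2) = 0 := by
        linear_combination (1 + ρ ^ 3) * h + e1 - h4
      have h7 : 1 + ρ ^ 2 = 0 := (mul_eq_zero.1 h6).resolve_left hρ
      have h8 : (3 : ℂ) = 0 := by
        linear_combination h4 - (ρ ^ 2 - 2) * h7
      norm_num at h8
    · exfalso
      rw [h5, map_pow] at h
      have h6 : ρ ^ 3 + 1 = ρ * b1 := by
        linear_combination ρ * h - (ρ * conj ρ + 1) * hc
      have h7 : ρ ^ 3 = 0 := by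
        linear_combination (1 + ρ ^ 3) * h6 + ρ * e1 - (ρ ^ 2 + 1) * h4
      exact pow_ne_zero 3 hρ h7
    · exfalso
      rw [h5, map_pow] at h
      have h6 : ρ ^ 5 + 1 = ρ ^ 2 * b1 := by
        linear_combination ρ ^ 2 * h - ((ρ * conj ρ) ^ 2 + ρ * conj ρ + 1) * hc
      have h7 : 2 - ρ - 2 * ρ ^ 2 + 2 * ρ ^ 3 = 0 := by
        linear_combination (1 + ρ ^ 3) * h6 + ρ ^ 2 * e1 - (ρ ^ 4 + ρ ^ 2 + ρ - 1) * h4
      have h8 : (1 : ℂ) = 0 := by
        linear_combination (ρ + 2 * ρ ^ 2 + ρ ^ 3) * h7 + (1 - 2 * ρ - 2 * ρ ^ 2) * h4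
      exact one_ne_zero h8
    · exfalso
      rw [h5, ← c1] at h
      apply hb1
      linear_combination h
    · exfalso
      rw [h5] at h
      have h6 : (ρ ^ 2 + 1) * b2 = ρ ^ 2 * b1 := by
        linear_combination ρ ^ 2 * h + c2
      have h7 : ρ ^ 3 * (1 - ρ + ρ ^ 2) = 0 := by
        linear_combination (1 + ρ ^ 3) * h6 - (ρ ^ 2 + 1) * e2 + ρ ^ 2 * e1
      have h8 : 1 - ρ + ρ ^ 2 = 0 := (mul_eq_zero.1 h7).resolve_left (pow_ne_zero 3 hρ)
      have h9 : (2 : ℂ) = 0 := by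
        linear_combination (2 + ρ - ρ ^ 2 - ρ ^ 3) * h8 + ρ * h4
      norm_num at h9
    · exact h5
  have h5 := Finset.card_le_card hsub
  rw [Finset.card_singleton] at h5
  omega

end Pool.Agent.Helper72.BR
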